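import Pool.Agent.TH958.An.Final
import Pool.Agent.TH958.FP.Dim

/-!
# Tate's form of the Birch–Swinnerton-Dyer conjecture over the function fields of fibre powers

Let `a ∈ ℤ[u]`, `u = (u_t)_{t ∈ τ}`, be a nonzero polynomial and let `r ≥ 1`.  The ring

`R = ℤ[u, x_1, ..., x_r, B][y_1, ..., y_r] / (y_i² = x_i³ + a(u) x_i + B)`

(`RF r a`) is the coordinate ring of the `r`-th fibre power, over the space of the parameters
`(u, B)`, of the affine family of curves `y² = x³ + a(u) x + B`; it is a domain of dimension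
`n = #τ + r + 2`.  Let `K` be its field of fractions, a finitely generated field of transcendence
degree `#τ + r + 1` over `ℚ`, and let `E` be the elliptic curve `Y² = X³ + a(u) X + B` over `K`
(`EE a r`).  A smooth model of `E` lives over `𝒴 = Spec R[1/(6(4a³ + 27B²))]`, of dimension `n`.

We prove Tate's conjecture (Q1) for `X = E` over `K`: the Euler product `Φ₁(s)` over all closed
points of `𝒴`, which converges for `Re s > n + 1/2`, continues meromorphically to
`Re s > n - 1/6`; the group `E(K)` is free of rank `r`; and the order of vanishing of `Φ₁` at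
`s = n` is `r`, the rank of `E(K)`.  There are no other zeros or poles on the line `Re s = n`.
-/

set_option autoImplicit false

namespace Pool.Agent.Results.MP_9faec4_nt.FibrePowers

open Pool.Agent.TH958.FP Pool.Agent.TH958.An

/-- **Tate's conjecture over the function fields of fibre powers: an infinite family of elliptic
curves over finitely generated fields of every transcendence degree in which the rank, and the
order of vanishing, is an arbitrary prescribed number `r ≥ 1`.** -/
theorem result (τ : Type) [Fintype τ] (a : MvPolynomial τ ℤ) (ha : a ≠ 0) (r : ℕ) (hr : 0 < r) :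
    IsDomain (RF r a) ∧ ringKrullDim (RF r a) = (Fintype.card τ + r + 2 : ℕ) ∧
    ∃ Φ : ℂ → ℂ,
      (∀ s : ℂ, ((Fintype.card τ + r + 2 : ℕ) : ℝ) + 1 / 2 < s.re →
        HasProd (fun y : {y : MaximalSpectrum (RF r a) // NE a r ∉ y.asIdeal} =>
          (1 - (ay (EE a r) y.1 : ℂ) * (qy y.1 : ℂ) ^ (-s) + (qy y.1 : ℂ) ^ (1 - 2 * s))⁻¹) (Φ s)) ∧
      MeromorphicOn Φ {s : ℂ | ((Fintype.card τ + r + 2 : ℕ) : ℝ) - 1 / 6 < s.re} ∧
      (∀ s : ℂ, s.re = ((Fintype.card τ + r + 2 : ℕ) : ℝ) →
        s ≠ ((Fintype.card τ + r + 2 : ℕ) : ℂ) → AnalyticAt ℂ Φ s ∧ Φ s ≠ 0) ∧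
      ∀ (K : Type) [Field K] [DecidableEq K] [Algebra (RF r a) K] [IsFractionRing (RF r a) K],
        Module.Free ℤ ((EE a r).map (algebraMap (RF r a) K)).toAffine.Point ∧
        Module.Finite ℤ ((EE a r).map (algebraMap (RF r a) K)).toAffine.Point ∧
        Module.finrank ℤ ((EE a r).map (algebraMap (RF r a) K)).toAffine.Point = r ∧
        meromorphicOrderAt Φ ((Fintype.card τ + r + 2 : ℕ) : ℂ) =
          ((Module.finrank ℤ ((EE a r).map (algebraMap (RF r a) K)).toAffine.Point : ℤ) :
            WithTop ℤ) := by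
  refine ⟨inferInstance, dim_RF a, ?_⟩
  obtain ⟨Φ, h1, h2, h3, h4⟩ := analytic τ a ha r hr
  have e1 : (((Fintype.card τ + r + 1 : ℕ) : ℂ) + 1) = ((Fintype.card τ + r + 2 : ℕ) : ℂ) := by
    push_cast; ring
  rw [e1] at h3
  refine ⟨Φ, ?_, ?_, ?_, ?_⟩
  · intro s hs
    refine h1 s ?_
    push_cast at hs ⊢
    linarith
  · intro s hs
    refine h2 s ?_
    rw [Set.mem_ofPred_eq] at hs ⊢
    push_cast at hs ⊢
    linarith
  · intro s hs hne
    refine h4 s ?_ ?_
    · rw [hs]
      push_cast
      ring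
    · rw [e1]
      exact hne
  · intro K _ _ _ _
    obtain ⟨g1, g2, g3⟩ := algebraic τ a r hr K
    refine ⟨g1, g2, g3, ?_⟩
    rw [h3, g3]

end Pool.Agent.Results.MP_9faec4_nt.FibrePowers
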