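import Pool.Agent.TH943.LP.Pen

/-!
The orders of vanishing of the L-functions of the Jacobians of the curves
`D(t) y ^ 2 = (x - h(t)) f(x)` over `k(t)`, for all polynomials `f`, `h`, `D`.
-/

set_option autoImplicit false
set_option maxHeartbeats 1000000

open Polynomial

namespace Pool.Agent.Results.MP_9faec4_nt.PencilPullbacks

/-- The closed points of the affine line over the field `F`: monic irreducible polynomials. -/
abbrev ClosedPt (F : Type) [Field F] : Type := {P : F[X] // P.Monic ∧ Irreducible P}

section generic

variable {F : Type} [Field F]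

open Classical in
/-- The quadratic character of the field `F[x] / (Q)` at the class of `h`. -/
noncomputable def quadChar (h Q : F[X]) : ℤ :=
  if Q ∣ h then 0 else if ∃ s : F[X], Q ∣ h - s ^ 2 then 1 else -1

/-- The degree of the closed point `Q` of the line over a field `F` of degree `d`. -/
noncomputable def ptDegree (d : ℕ) (Q : ClosedPt F) : ℕ := d * Q.1.natDegree

/-- The Euler factor `1 - χ T ^ n`, where `χ` is the value of the quadratic character of the residue
field of `Q` at `h`, and `n` is the degree of `Q`. -/
noncomputable def ptFactor (h : F[X]) (d : ℕ) (Q : ClosedPt F) : PowerSeries ℤ :=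
  1 - PowerSeries.C (quadChar h Q.1) * PowerSeries.X ^ ptDegree d Q

end generic

/-- The Euler product: its coefficient of index `n` is that of the product of the factors of degree
at most `n`. -/
noncomputable def eulerProduct {ι : Type} (d : ι → ℕ) (f : ι → PowerSeries ℤ) : PowerSeries ℤ :=
  PowerSeries.mk fun n => PowerSeries.coeff n (∏ᶠ (i : ι) (_ : d i ≤ n), f i)

/-- The product of the factors `1 - χ T ^ n` over the closed points of the affine line over `F`, `χ`
the value of the quadratic character at `h`. -/
noncomputable def lineProduct {F : Type} [Field F] (h : F[X]) : PowerSeries ℤ :=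
  eulerProduct (fun Q : ClosedPt F => ptDegree 1 Q) (fun Q => ptFactor h 1 Q)

section defs

variable {k : Type} [Field k]

/-- The residue field of the closed point `P` of the `t`-line. -/
def Res (P : ClosedPt k) : Type := AdjoinRoot P.1

noncomputable instance resField (P : ClosedPt k) : Field (Res P) :=
  @AdjoinRoot.instField k _ P.1 ⟨P.2.2⟩

/-- The value at `P` of a polynomial in `t`. -/
noncomputable def value (P : ClosedPt k) (g : k[X]) : Res P := AdjoinRoot.mk P.1 g

/-- The inclusion of the constants in the residue field. -/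
noncomputable def constants (P : ClosedPt k) : k →+* Res P := AdjoinRoot.of P.1

/-- The polynomial `D(t) (x - h(t)) f(x)` in `x` over the residue field of the closed point `P`. -/
noncomputable def fibre (f h D : k[X]) (P : ClosedPt k) : (Res P)[X] :=
  C (value P D) * ((X - C (value P h)) * f.map (constants P))

/-- The closed points of the `(t, x)`-plane with `D(t) ≠ 0`: a closed point of the `t`-line and a
closed point of the `x`-line over its residue field. -/
structure PlanePt (D : k[X]) : Type where
  place : ClosedPt k
  ndvd : ¬ place.1 ∣ D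
  point : ClosedPt (Res place)

/-- The degree of a closed point of the plane. -/
noncomputable def PlanePt.deg {D : k[X]} (z : PlanePt D) : ℕ :=
  ptDegree z.place.1.natDegree z.point

/-- The Euler factor of a closed point of the plane. -/
noncomputable def PlanePt.factor {D : k[X]} (f h : k[X]) (z : PlanePt D) : PowerSeries ℤ :=
  ptFactor (fibre f h D z.place) z.place.1.natDegree z.point

open Classical in
/-- The factors of the points `x = ∞` of the fibres: if the degree of `f` is odd then the factor of the
fibre at `P` is `1 - χ(P) T ^ deg P` with the quadratic character `χ(P)` of the residue field of `P` at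
`D`; if the degree is even then these are points of ramification and the factors are one. -/
noncomputable def fibreInfFactor (f D : k[X]) : PowerSeries ℤ :=
  if Odd f.natDegree then lineProduct D else 1

open Classical in
/-- The Euler factor at `t = ∞`: if the degree of `h D` is even then it is the product over the closed
points of the affine line for the reduction `y ^ 2 = - c f(x)`, `c` the leading coefficient of `h D`;
otherwise the factor is one. -/
noncomputable def infFactor (f h D : k[X]) : PowerSeries ℤ :=
  if Even (h.natDegree + D.natDegree) then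
    lineProduct (C (-(h.leadingCoeff * D.leadingCoeff)) * f) else 1

/-- The `L`-function in the variable `T = q ^ (-s)` of the Jacobian of the curve
`D(t) y ^ 2 = (x - h(t)) f(x)` over `k(t)`, `f` monic: the product of `1 - χ(z) T ^ deg z` over the
closed points `z` of the plane with `D(t) ≠ 0`, where `χ(z)` is the quadratic character of the residue
field of `z` at `D(t) (x - h(t)) f(x)`, times the factors of the points `x = ∞` of the fibres, times
the factor at `t = ∞`. -/
noncomputable def Lfun (f h D : k[X]) : PowerSeries ℤ :=
  eulerProduct (fun z : PlanePt D => z.deg) (fun z => z.factor f h) * fibreInfFactor f D *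
    infFactor f h D

/-- `L(T) = (1 - q T) ^ m G(T)` with an integral polynomial `G`: the function vanishes to order at
least `m` at `s = 1`. -/
def VanishesTo (f h D : k[X]) (m : ℕ) : Prop :=
  ∃ G : ℤ[X], Lfun f h D = (((1 - C (Nat.card k : ℤ) * X) ^ m * G : ℤ[X]) : PowerSeries ℤ)

/-- The polynomial `f` is monic and squarefree of degree at least two. -/
structure IsBase (f : k[X]) : Prop where
  monic : f.Monic
  squarefree : Squarefree f
  degree : 2 ≤ f.natDegree

open Classical in
/-- The monic irreducible factors of the polynomial `g`. -/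
noncomputable def primes (g : k[X]) : Finset k[X] :=
  (UniqueFactorizationMonoid.normalizedFactors g).toFinset

/-- The highest power of two which divides `n`. -/
def twoPart (n : ℕ) : ℕ := 2 ^ padicValNat 2 n

/-- The sum of `2 ^ v(deg P)`, `v` the 2-adic valuation, over the monic irreducible factors `P` of the
polynomial `g`. -/
noncomputable def total (g : k[X]) : ℕ := ∑ P ∈ primes g, twoPart P.natDegree

open Classical in
/-- The sum of `2 ^ v(deg P)` over the monic irreducible factors `P` of `f(h(t))` which do not divide
`D`, and of `gcd(deg P, deg R) 2 ^ v(lcm(deg P, deg R))` over the monic irreducible factors `P` of `D`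
and `R` of `f`, plus one if the degree of `f` is odd, plus one if the degree of `h D` is even. -/
noncomputable def upper (f h D : k[X]) : ℕ :=
  ∑ P ∈ primes (f.comp h) \ primes D, twoPart P.natDegree +
    ∑ P ∈ primes D, ∑ R ∈ primes f,
      Nat.gcd P.natDegree R.natDegree * twoPart (Nat.lcm P.natDegree R.natDegree) +
    ((if Odd f.natDegree then 1 else 0) + (if Even (h.natDegree + D.natDegree) then 1 else 0))

open Classical in
/-- The total of `f`, plus the total of `D` if the degree of `f` is odd, plus the total of `f` if the
degree of `h D` is even. -/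
noncomputable def lower (f h D : k[X]) : ℕ :=
  total f + ((if Odd f.natDegree then total D else 0) +
    (if Even (h.natDegree + D.natDegree) then total f else 0))

/-- The values at `h` of the irreducible factors of `f` are irreducible. -/
def KeepsPrimes (f h : k[X]) : Prop :=
  ∀ R : k[X], Irreducible R → R ∣ f → Irreducible (R.comp h)

/-- the equivalence of the two descriptions of the points of the plane -/
noncomputable def planeEquiv (D : k[X]) :
    (Σ P : {P : Pool.Agent.W313.Hyp.MI k // ¬ P.1 ∣ D},
      Pool.Agent.W313.Hyp.MI (Pool.Agent.TH943.HJ.RF P.1)) ≃ PlanePt D where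
  toFun z := ⟨z.1.1, z.1.2, z.2⟩
  invFun z := ⟨⟨z.place, z.ndvd⟩, z.point⟩
  left_inv _ := rfl
  right_inv _ := rfl

theorem Lfun_eq (f h D : k[X]) :
    Lfun f h D = Pool.Agent.TH943.LP.LL f h D := by
  unfold Lfun Pool.Agent.TH943.LP.LL
  congr 1
  congr 1
  unfold Pool.Agent.TH943.LP.LF eulerProduct Pool.Agent.W343.BSD.eulerProd
  ext n
  rw [PowerSeries.coeff_mk, PowerSeries.coeff_mk]
  congr 1
  exact (finprod_comp_equiv (planeEquiv D)
    (f := fun z : PlanePt D => ∏ᶠ (_ : z.deg ≤ n), z.factor f h)).symm

open Classical in
theorem sum_facs_sdiff [Finite k] {g D : k[X]} (hg : g ≠ 0) (hD : D ≠ 0) (F : k[X] → ℕ) :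
    ∑ P ∈ Pool.Agent.W313.Hyp.facs g \ Pool.Agent.W313.Hyp.facs D, F P.1 =
      ∑ P ∈ primes g \ primes D, F P := by
  classical
  have hm : ∀ {g : k[X]}, g ≠ 0 → ∀ P : k[X], P ∈ primes g ↔ P.Monic ∧ Irreducible P ∧ P ∣ g :=
    fun hg P => Pool.Agent.TH943.HJ.mem_primes hg P
  refine Finset.sum_bij (fun P _ => P.1) ?_ ?_ ?_ ?_
  · intro P hP
    rw [Finset.mem_sdiff, Pool.Agent.W313.Hyp.mem_facs hg, Pool.Agent.W313.Hyp.mem_facs hD] at hP
    rw [Finset.mem_sdiff, hm hg, hm hD]
    exact ⟨⟨P.2.1, P.2.2, hP.1⟩, fun h => hP.2 h.2.2⟩
  · intro P _ Q _ h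
    exact Subtype.ext h
  · intro P hP
    rw [Finset.mem_sdiff, hm hg, hm hD] at hP
    obtain ⟨⟨h1, h2, h3⟩, h4⟩ := hP
    refine ⟨⟨P, h1, h2⟩, ?_, rfl⟩
    rw [Finset.mem_sdiff, Pool.Agent.W313.Hyp.mem_facs hg, Pool.Agent.W313.Hyp.mem_facs hD]
    exact ⟨h3, fun h => h4 ⟨h1, h2, h⟩⟩
  · intro P _
    rfl

theorem comp_ne {f h : k[X]} (hf : f ≠ 0) (hh : 0 < h.natDegree) : f.comp h ≠ 0 := by
  intro h0
  rcases comp_eq_zero_iff.1 h0 with h1 | ⟨_, h2⟩
  · exact hf h1
  · rw [h2, natDegree_C] at hh
    exact lt_irrefl _ hh

/-- the bound in the case of irreducible values -/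
theorem total_comp {f h : k[X]} (hf : f ≠ 0) (hh : 0 < h.natDegree) (ho : Odd h.natDegree)
    (hk : KeepsPrimes f h) : total (f.comp h) ≤ total f := by
  classical
  have hm : ∀ {g : k[X]}, g ≠ 0 → ∀ P : k[X], P ∈ primes g ↔ P.Monic ∧ Irreducible P ∧ P ∣ g :=
    fun hg P => Pool.Agent.TH943.HJ.mem_primes hg P
  have hsub : primes (f.comp h) ⊆ (primes f).image fun R => normalize (R.comp h) := by
    intro P hP
    obtain ⟨h1, h2, h3⟩ := (hm (comp_ne hf hh) P).1 hP
    -- `f` is a unit times the product of its prime factors
    have h4 : P ∣ (UniqueFactorizationMonoid.normalizedFactors f).prod.comp h := by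
      obtain ⟨u, hu⟩ := UniqueFactorizationMonoid.prod_normalizedFactors hf
      rw [← hu] at h3
      obtain ⟨c, hc, hcu⟩ := Polynomial.isUnit_iff.1 u.isUnit
      rw [mul_comp, ← hcu, C_comp] at h3
      exact ((isUnit_C.2 hc).dvd_mul_right).1 h3
    have h5 : ∀ S : Multiset k[X], P ∣ S.prod.comp h → ∃ R ∈ S, P ∣ R.comp h := by
      intro S
      induction S using Multiset.induction_on with
      | empty =>
        intro h6
        rw [Multiset.prod_zero, one_comp] at h6
        exact (h2.not_isUnit (isUnit_of_dvd_one h6)).elim
      | cons a S ih =>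
        intro h6
        rw [Multiset.prod_cons, mul_comp] at h6
        rcases h2.prime.dvd_or_dvd h6 with h7 | h7
        · exact ⟨a, Multiset.mem_cons_self a S, h7⟩
        · obtain ⟨R, hR, hR'⟩ := ih h7
          exact ⟨R, Multiset.mem_cons_of_mem hR, hR'⟩
    obtain ⟨R, hR, hR'⟩ := h5 _ h4
    rw [Finset.mem_image]
    have hR2 : R ∈ primes f := Multiset.mem_toFinset.2 hR
    obtain ⟨g1, g2, g3⟩ := (hm hf R).1 hR2
    refine ⟨R, hR2, ?_⟩
    have h8 : Associated P (R.comp h) := h2.associated_of_dvd (hk R g2 g3) hR'
    rw [← h1.normalize_eq_self]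
    exact normalize_eq_normalize h8.symm.dvd h8.dvd
  unfold total
  refine (Finset.sum_le_sum_of_subset hsub).trans
    ((Finset.sum_image_le_of_nonneg ?_).trans ?_)
  · intro _ _; exact Nat.zero_le _
  · apply Finset.sum_le_sum
    intro R hR
    obtain ⟨g1, g2, g3⟩ := (hm hf R).1 hR
    have h9 : (normalize (R.comp h)).natDegree = R.natDegree * h.natDegree := by
      rw [natDegree_eq_of_degree_eq (degree_eq_degree_of_associated (normalize_associated _)),
        natDegree_comp]
    rw [h9]
    unfold twoPart
    rw [padicValNat.mul g2.natDegree_pos.ne' hh.ne']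
    have : ¬ 2 ∣ h.natDegree := by
      intro h2
      obtain ⟨j, hj⟩ := ho
      omega
    rw [padicValNat.eq_zero_of_not_dvd this, add_zero]

end defs

/-- **The orders of vanishing for the pullbacks and twists of the universal hyperelliptic pencils.**

Let `k` be a finite field with `q` elements of odd characteristic, `f` a monic squarefree polynomial
over `k` of degree `n ≥ 2`, `h` a nonconstant and `D` a squarefree polynomial over `k`, and `J_D` the
Jacobian, of dimension `g`, the integral part of `n / 2`, of the curve `D(t) y ^ 2 = (x - h(t)) f(x)`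
over `K = k(t)`. It is the twist by `D` of the pullback by `h` of the universal family
`y ^ 2 = (x - u) f(x)`, with geometric monodromy group known to be Zariski dense in `Sp(2 g)`. At the
places dividing `D` there are no inertia invariants; at the zeros of `f(h(t))`, if they are not zeros
of `D`, the fibre is semistable with one node; the other finite places are places of good reduction.
At infinity `D (x - h)` is `- c t ^ (deg (h D))` times a square, `c` the leading coefficient of `h D`; so
if this degree is even then the reduction is `y ^ 2 = - c f(x)`, smooth if `n` is odd and with the two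
points at infinity identified to a node if `n` is even; if the degree is odd it is a ramified twist of
this, without inertia invariants. Hence `Lfun f h D` is the L-function of `J_D`, a polynomial in
`T = q ^ (-s)`.

Let `ε` in `k` not be a square. The sum of the orders of vanishing of `L(J_D, s)` and `L(J_{ε D}, s)` at
`s = 1` is at most `upper f h D - lower f h D`. If `D` is constant, `h` has odd degree and
`R(h(t))` is irreducible for all irreducible factors `R` of `f`, then the sum is zero for even
degree of `f` and at most one for odd degree. By Tate's inequality, Q1 holds when the order is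
zero. -/
theorem result (k : Type) [Field k] [Finite k] (h2 : (2 : k) ≠ 0) (f : k[X]) (hf : IsBase f)
    (h : k[X]) (hh : 0 < h.natDegree) (D : k[X]) (hD : Squarefree D) (ε : k) (hε : ¬ IsSquare ε)
    (m m' : ℕ) (hm : VanishesTo f h D m) (hm' : VanishesTo f h (C ε * D) m') :
    m + m' + lower f h D ≤ upper f h D ∧
      (D.natDegree = 0 → Odd h.natDegree → KeepsPrimes f h → m + m' ≤ f.natDegree % 2) := by
  classical
  obtain ⟨G, hG⟩ := hm
  obtain ⟨G', hG'⟩ := hm'
  rw [Lfun_eq] at hG hG'
  obtain ⟨G0, hG0⟩ := Pool.Agent.TH943.LP.combine h2 hε f h D m m' G G' hG hG'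
  have hf0 := hf.squarefree.ne_zero
  have hD0 := hD.ne_zero
  have hfh := comp_ne hf0 hh
  have hh0 : h ≠ 0 := by
    rintro rfl
    rw [natDegree_zero] at hh
    exact lt_irrefl _ hh
  have key := Pool.Agent.TH943.LP.order_bound (Pool.Agent.W343.BSD.card_odd h2) hf0 hfh hh0 hD0
    m m' G0 hG0
  have e1 : ∑ R ∈ Pool.Agent.W313.Hyp.facs f,
      Pool.Agent.W343.BSD.twoPart R.1.natDegree = total f :=
    Pool.Agent.TH943.HJ.sum_primes hf0 (fun P => twoPart P.natDegree)
  have e2 : ∑ P ∈ Pool.Agent.W313.Hyp.facs D,
      Pool.Agent.W343.BSD.twoPart P.1.natDegree = total D :=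
    Pool.Agent.TH943.HJ.sum_primes hD0 (fun P => twoPart P.natDegree)
  have e3 : ∑ P ∈ Pool.Agent.W313.Hyp.facs (f.comp h) \ Pool.Agent.W313.Hyp.facs D,
      Pool.Agent.W343.BSD.twoPart P.1.natDegree =
      ∑ P ∈ primes (f.comp h) \ primes D, twoPart P.natDegree :=
    sum_facs_sdiff hfh hD0 (fun P => twoPart P.natDegree)
  have e4 : ∑ P ∈ Pool.Agent.W313.Hyp.facs D, ∑ R ∈ Pool.Agent.W313.Hyp.facs f,
      Nat.gcd P.1.natDegree R.1.natDegree *
        Pool.Agent.W343.BSD.twoPart (Nat.lcm P.1.natDegree R.1.natDegree) =
      ∑ P ∈ primes D, ∑ R ∈ primes f,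
        Nat.gcd P.natDegree R.natDegree * twoPart (Nat.lcm P.natDegree R.natDegree) := by
    have h3 : ∀ P : k[X], ∑ R ∈ Pool.Agent.W313.Hyp.facs f, Nat.gcd P.natDegree R.1.natDegree *
        Pool.Agent.W343.BSD.twoPart (Nat.lcm P.natDegree R.1.natDegree) =
        ∑ R ∈ primes f, Nat.gcd P.natDegree R.natDegree *
          twoPart (Nat.lcm P.natDegree R.natDegree) := fun P =>
      Pool.Agent.TH943.HJ.sum_primes hf0
        (fun R => Nat.gcd P.natDegree R.natDegree * twoPart (Nat.lcm P.natDegree R.natDegree))
    have h4 : ∑ P ∈ Pool.Agent.W313.Hyp.facs D, ∑ R ∈ primes f, Nat.gcd P.1.natDegree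
        R.natDegree * twoPart (Nat.lcm P.1.natDegree R.natDegree) =
        ∑ P ∈ primes D, ∑ R ∈ primes f, Nat.gcd P.natDegree
        R.natDegree * twoPart (Nat.lcm P.natDegree R.natDegree) :=
      Pool.Agent.TH943.HJ.sum_primes hD0 (fun P => ∑ R ∈ primes f, Nat.gcd P.natDegree
        R.natDegree * twoPart (Nat.lcm P.natDegree R.natDegree))
    rw [← h4]
    exact Finset.sum_congr rfl fun P _ => h3 P.1
  rw [e1, e2, e3, e4] at key
  refine ⟨key, ?_⟩
  intro hDc ho hk
  have hD1 : primes D = ∅ := by
    rw [Finset.eq_empty_iff_forall_notMem]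
    intro P hP
    obtain ⟨_, g2, g3⟩ := (Pool.Agent.TH943.HJ.mem_primes hD0 P).1 hP
    have h4 := natDegree_le_of_dvd g3 hD0
    have h5 := g2.natDegree_pos
    omega
  have hev : ¬ Even (h.natDegree + D.natDegree) := by
    rw [hDc, add_zero, Nat.not_even_iff_odd]
    exact ho
  have h6 := total_comp hf0 hh ho hk
  unfold total at h6 key
  rw [hD1, if_neg hev, if_neg hev] at key
  simp only [Finset.sum_empty, Finset.sdiff_empty, add_zero] at key
  rcases Nat.even_or_odd f.natDegree with h7 | h7
  · have h8 : ¬ Odd f.natDegree := Nat.not_odd_iff_even.2 h7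
    rw [if_neg h8, if_neg h8] at key
    rw [Nat.even_iff] at h7
    omega
  · rw [if_pos h7, if_pos h7] at key
    rw [Nat.odd_iff] at h7
    omega

end Pool.Agent.Results.MP_9faec4_nt.PencilPullbacks
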