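import Pool.Agent.TH958.TA.Fin

/-!
# Rank equals order of vanishing, of unbounded size, over function fields of curves of every genus

The elliptic curves `y ^ 2 = x (x - 1 - h ^ m) (x - 1 + h ^ m)` for all divisors `m` of
`(p ^ ν + 1) / 2`, where `p ^ ν` is congruent to `1` modulo `4`.
-/

set_option autoImplicit false
set_option linter.all false
set_option maxHeartbeats 4000000

open Polynomial Pool.Agent.W343.BSD Pool.Agent.W309.RK

namespace Pool.Agent.Results.MP_9faec4_nt.PullbackRanksAllGenera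

/-- `x` has exactly one zero, and the order of this zero and the degree of the place are odd. -/
def OneZero (k : Type) {K : Type} [Field k] [Field K] [Algebra k K] (x : K) : Prop :=
  ∃ v : FF.Place k K, 0 < v.ord x ∧ Odd (v.ord x) ∧ Odd (S.deg v) ∧
    ∀ w : FF.Place k K, 0 < w.ord x → w = v

/-- The conditions on the function `h`: `h` and the functions `h - ζ` with `ζ ^ (2 m) = 1` have exactly
one zero each, of odd order and at a place of odd degree; exactly one of the poles of `h` has odd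
order, and the degree of this place is odd. -/
structure Conditions (k : Type) {K : Type} [Field k] [Field K] [Algebra k K] (m : ℕ) (h : K) :
    Prop where
  zero : OneZero k h
  shift : ∀ ζ : k, ζ ^ (2 * m) = 1 → OneZero k (h - algebraMap k K ζ)
  pole : ∃ v : FF.Place k K, v.ord h < 0 ∧ Odd (v.ord h) ∧ Odd (S.deg v) ∧
    ∀ w : FF.Place k K, w.ord h < 0 → Odd (w.ord h) → w = v

/-- The first coefficient of `E_h`. -/
def coeffA {K : Type} [Field K] (m : ℕ) (h : K) : K := -(1 / 3) - h ^ (2 * m)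

/-- The second coefficient of `E_h`. -/
def coeffB {K : Type} [Field K] (m : ℕ) (h : K) : K := 2 / 27 - 2 * h ^ (2 * m) / 3

/-- The curve `E_h : y ^ 2 = x (x - 1 - h ^ m) (x - 1 + h ^ m)`, in short form
`y ^ 2 = x ^ 3 + a x + b` (with `x` replaced by `x + 2 / 3`). -/
def curve {K : Type} [Field K] (m : ℕ) (h : K) : WeierstrassCurve K :=
  ⟨0, 0, 0, coeffA m h, coeffB m h⟩

open Classical in
/-- `E_h` is an elliptic curve whose `j`-invariant `6912 a ^ 3 / (4 a ^ 3 + 27 b ^ 2)` is not in `k`, with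
`ρ` linearly independent points over `K`; its `L`-function vanishes at `T = 1 / |k|` to order at most
`ρ`: if it is `(1 - |k| T) ^ M G(T)` with `G` in `ℤ[T]`, then `M ≤ ρ`. If it is a polynomial with order
of vanishing `r` and the rank is at most `r`, then the rank and `r` are equal to `ρ`. -/
def RankAndOrder (k : Type) {K : Type} [Field k] [Finite k] [Field K] [Algebra k K] (ρ m : ℕ)
    (h : K) : Prop :=
  4 * coeffA m h ^ 3 + 27 * coeffB m h ^ 2 ≠ 0 ∧
  (∀ c : k, 6912 * coeffA m h ^ 3 / (4 * coeffA m h ^ 3 + 27 * coeffB m h ^ 2) ≠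
    algebraMap k K c) ∧
  (∃ P : Fin ρ → (curve m h).toAffine.Point, LinearIndependent ℤ P) ∧
  (∀ M : ℕ, S.VanishesTo k (coeffA m h) (coeffB m h) M → M ≤ ρ) ∧
  ∀ r : ℕ, Pool.Agent.W313.Gr.HasOrder k (coeffA m h) (coeffB m h) r →
    Module.rank ℤ (curve m h).toAffine.Point ≤ r →
      r = ρ ∧ Module.rank ℤ (curve m h).toAffine.Point = ρ

theorem aT_eq {K : Type} [Field K] (m : ℕ) (h : K) :
    Pool.Agent.TH958.T5.aT 0 (2 * m) h = coeffA m h := by
  unfold Pool.Agent.TH958.T5.aT Pool.Agent.TH958.T5.aa coeffA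
  rw [pow_zero, one_pow, one_mul]

theorem bT_eq {K : Type} [Field K] (m : ℕ) (h : K) :
    Pool.Agent.TH958.T5.bT 0 (2 * m) h = coeffB m h := by
  unfold Pool.Agent.TH958.T5.bT Pool.Agent.TH958.T5.bb coeffB
  rw [pow_zero, one_pow, one_mul]

/-- (1) Let `k` be a finite field with `p ^ (2 ν n)` elements, `p ≥ 5` a prime, `p ^ ν` congruent
to `1` modulo `4`, `m` a divisor of `(p ^ ν + 1) / 2`, and let `K` be the function field of a curve over
`k` with constant field `k` and odd class number. Let `h` in `K` satisfy the conditions. Then the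
elliptic curve `y ^ 2 = x (x - 1 - h ^ m) (x - 1 + h ^ m)` has at least `2 m - 1` independent points
over `K`, and its `L`-function vanishes at `T = 1 / |k|` to order at most `2 m - 1`; if the rank is at
most the order, both are `2 m - 1`.

(2) There are such `k`, for every `p ≥ 5` and `ν ≥ 1`, such that for `K = k(t)` the conditions on `K`
hold and those on `h` hold, for all divisors `m` of `(p ^ ν + 1) / 2`, for polynomials `h` of
arbitrarily large degree. -/
theorem result :
    (∀ (p ν n m : ℕ), p.Prime → 5 ≤ p → 1 ≤ ν → p ^ ν % 4 = 1 → m ∣ (p ^ ν + 1) / 2 →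
      ∀ (k K : Type) [Field k] [Finite k] [Field K] [Algebra k K],
      Nat.card k = p ^ (2 * ν * n) → IsCurveField k K →
      Odd (S.classNumber k K) → ∀ h : K, Conditions k m h → RankAndOrder k (2 * m - 1) m h) ∧
    ∀ (p ν : ℕ), p.Prime → 5 ≤ p → 1 ≤ ν → ∃ (k : Type) (_ : Field k) (_ : Finite k) (n : ℕ),
      Nat.card k = p ^ (2 * ν * n) ∧ IsCurveField k (RatFunc k) ∧
      Odd (S.classNumber k (RatFunc k)) ∧ ∀ N : ℕ, ∃ h : k[X], N ≤ h.natDegree ∧
        ∀ m : ℕ, m ∣ (p ^ ν + 1) / 2 → Conditions k m (algebraMap k[X] (RatFunc k) h) := by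
  have key : ∀ (p ν m : ℕ), p.Prime → m ∣ (p ^ ν + 1) / 2 → p ≠ 2 → 2 * m - 1 + 1 = 2 * m := by
    intro p ν m hp hm hp2
    have : m ≠ 0 := by
      rintro rfl
      have h0 := Nat.eq_zero_of_zero_dvd hm
      have h1 : 0 < p ^ ν := pow_pos hp.pos ν
      omega
    omega
  refine ⟨?_, ?_⟩
  · intro p ν n m hp hp5 hν hQ4 hm k K _ _ _ _ hcard hK hcl h hA
    haveI : FF.IsFF k K := ⟨hK.essFiniteType, hK.trdeg_eq_one⟩
    have hkey := key p ν m hp hm (by omega)
    obtain ⟨⟨h1, h2⟩, h3, h4, h5⟩ := Pool.Agent.TH958.TA.main_even hp hp5 hQ4 hν hm hcard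
      hK.algClosed hcl (h := h) ⟨hA.zero, by rw [hkey]; exact hA.shift, hA.pole⟩
    rw [aT_eq, bT_eq] at h1 h2 h3 h4 h5
    exact ⟨h1, fun c hc => h2 c ((div_eq_iff h1).1 hc), h3, h4, h5⟩
  · intro p ν hp hp5 hν
    obtain ⟨k, i1, i2, n, h1, h2, h3, h4⟩ := Pool.Agent.TH958.TA.exist hp hp5 hν
    refine ⟨k, i1, i2, n, h1, h2, h3, fun N => ?_⟩
    obtain ⟨h, h5, h6⟩ := h4 N
    refine ⟨h, h5, fun m hm => ?_⟩
    obtain ⟨-, h8⟩ := h6 m hm
    have hs := h8.shift
    rw [key p ν m hp hm (by omega)] at hs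
    exact ⟨h8.zero, hs, h8.pole⟩

end Pool.Agent.Results.MP_9faec4_nt.PullbackRanksAllGenera
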