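import Pool.Agent.Results.MP_9faec4_nt.AllNumberFields
import Pool.Agent.TH545.SymCore
import Pool.Agent.TH545.Young
import Pool.Agent.TH545.FracIso
import Pool.Agent.W353.EF.Defs

/-!
# Tate's conjecture for twisted elliptic curves over all subfields of a field with symmetric group

`K` is a number field, `u = (u_j : j ∈ τ)` are variables, `E : y² = x³ + b₂x² + b₄x + b₆` is an
elliptic curve over `K(u)` with coefficients `b_i ∈ 𝓞_K[u]`, and `h ∈ 𝓞_K[u][t]` has positive degree
in `t` and no multiple root over `K(u)`.  For a number field `M ⊇ K` let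
`E_M : h(u, t) y² = x³ + b₂x² + b₄x + b₆` be the quadratic twist of `E` by `h` over the finitely
generated field `M(u, t)`.  Let `L/K` be a Galois extension with Galois group `S_n`.  The theorem is about
Tate's conjecture for `E_M` for all fields `M` between `K` and `L`.  The definitions of the families,
of the Euler product `Φ₁` and of its order at `dim Y = #τ + 2` are in
`Pool.Agent.Results.MP_9faec4_nt.AllNumberFields`.
-/

set_option autoImplicit false

namespace Pool.Agent.Results.MP_9faec4_nt.SymmetricClosure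

open NumberField IsDedekindDomain Filter Topology Polynomial
open Pool.Agent.Results.MP_9faec4_nt.AllNumberFields (Family)
open Pool.Agent.W353.EF (perm closure youngField quadField expected)

section
variable {K : Type} [Field K] [NumberField K] {τ : Type} [Fintype τ]

/-- `M` is a number field, and the function `Φ₁` of `E_M` has a meromorphic continuation to a
neighbourhood of the point `dim Y = #τ + 2`, of order `m` there. -/
def OrderOver (E : Family K τ) (M : IntermediateField K (AlgebraicClosure K)) (m : ℤ) : Prop :=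
  ∃ _ : NumberField M, E.HasOrder (1 : 𝓞 M) m

/-- The rank of the group of the points of `E_M` over the fraction field `M(u, t)` of `𝓞_M[u][t]` is the
natural number `k`. -/
def HasRank (E : Family K τ) (M : IntermediateField K (AlgebraicClosure K)) [NumberField M]
    (k : ℕ) : Prop :=
  ∀ (L : Type) [Field L] [DecidableEq L] [Algebra (MvPolynomial τ (𝓞 M))[X] L]
    [IsFractionRing (MvPolynomial τ (𝓞 M))[X] L],
    Module.rank ℤ (E.curve (1 : 𝓞 M) L).toAffine.Point = k

/-- Tate's conjecture for `E_M`, with rank and order `k`: `M` is a number field, the rank of the group of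
the points of `E_M` over `M(u, t)` is `k`, and `Φ₁` has a meromorphic continuation to a neighbourhood of
`dim Y`, of order `k` at this point. -/
def TateHolds (E : Family K τ) (M : IntermediateField K (AlgebraicClosure K)) (k : ℕ) : Prop :=
  ∃ _ : NumberField M, HasRank E M k ∧ E.HasOrder (1 : 𝓞 M) (k : ℤ)

/-- Tate's conjecture for `E_M` apart from the existence of the continuation: the rank is `k`,
`log |Φ₁(dim Y + ε)| / log(1/ε)` tends to `-k` as `ε → 0+`, and every meromorphic continuation of `Φ₁` to a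
neighbourhood of `dim Y` has the order `k` there. -/
def TateAtEdge (E : Family K τ) (M : IntermediateField K (AlgebraicClosure K)) [NumberField M]
    (k : ℕ) : Prop :=
  HasRank E M k ∧
  (∀ Φ : ℂ → ℂ, E.IsPhi (1 : 𝓞 M) Φ →
    Tendsto (fun ε : ℝ => Real.log ‖Φ ((Fintype.card τ : ℂ) + 2 + ε)‖ / Real.log (1 / ε))
      (𝓝[>] 0) (𝓝 (-(k : ℝ)))) ∧
  ∀ m, E.HasOrder (1 : 𝓞 M) m → m = ((k : ℤ) : WithTop ℤ)

/-- For every field `M` between `K` and the closure `L` of `F`, with `k = m ⊥` if `M` contains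
`K(√disc F)` and `k = m ⊤` if not: `log |Φ₁(dim Y + ε)| / log(1/ε)` tends to `-k` as `ε → 0+`, and every
meromorphic continuation of `Φ₁` for `E_M` to a neighbourhood of `dim Y` has the order `k` there. -/
def OrdersBetween (E : Family K τ) (F : Type) [Field F] [NumberField F] [Algebra K F]
    (m : Setoid (F →ₐ[K] AlgebraicClosure K) → ℤ) : Prop :=
  ∀ (M : IntermediateField K (AlgebraicClosure K)) [NumberField M], M ≤ closure K F →
    (∀ Φ : ℂ → ℂ, E.IsPhi (1 : 𝓞 M) Φ →
      Tendsto (fun ε : ℝ => Real.log ‖Φ ((Fintype.card τ : ℂ) + 2 + ε)‖ / Real.log (1 / ε))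
        (𝓝[>] 0) (𝓝 (-(expected F m M : ℝ)))) ∧
    ∀ k, E.HasOrder (1 : 𝓞 M) k → k = ((expected F m M : ℤ) : WithTop ℤ)

open Classical in
/-- If Tate's conjecture is true for `E_K` and for `E_L`, with ranks `a` and `b`, then it is true, apart
from the existence of the continuation, for `E_M` for every field `M` between `K` and the closure `L` of
`F`, with rank `b` if `M` contains `K(√disc F)` and with rank `a` if not. -/
def TateBetween (E : Family K τ) (F : Type) [Field F] [NumberField F] [Algebra K F] : Prop :=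
  ∀ a b : ℕ, TateHolds E ⊥ a → TateHolds E (closure K F) b →
    ∀ (M : IntermediateField K (AlgebraicClosure K)) [NumberField M], M ≤ closure K F →
      TateAtEdge E M (if quadField K F ≤ M then b else a)

end

section
variable {K : Type} [Field K] [NumberField K] {τ : Type} [Fintype τ]

open Pool.Agent.TH545.Descent Pool.Agent.TH545.Points

/-- the curve over the polynomial ring -/
noncomputable def W0 (E : Family K τ) : WeierstrassCurve (Rg τ (𝓞 K)) where
  a₁ := 0
  a₂ := C E.b₂ * E.h
  a₃ := 0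
  a₄ := C E.b₄ * E.h ^ 2
  a₆ := C E.b₆ * E.h ^ 3

omit [Fintype τ] in
theorem curve_eq (E : Family K τ) (M : Type) [Field M] [NumberField M] [Algebra K M]
    (L : Type) [Field L] [Algebra (MvPolynomial τ (𝓞 M))[X] L] :
    ((W0 E).map (pm τ (algebraMap (𝓞 K) (𝓞 M)))).baseChange L = E.curve (1 : 𝓞 M) L := by
  have hD : E.D (1 : 𝓞 M) = pm τ (algebraMap (𝓞 K) (𝓞 M)) E.h := by
    unfold Family.D
    rw [map_one, map_one, one_mul]
    rfl
  have hb : ∀ b : MvPolynomial τ (𝓞 K), pm τ (algebraMap (𝓞 K) (𝓞 M)) (C b) =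
      AllNumberFields.up M b := by
    intro b
    unfold pm AllNumberFields.up
    rw [Polynomial.coe_mapRingHom, Polynomial.map_C]
  have h1 : ∀ b : MvPolynomial τ (𝓞 K), ∀ j : ℕ,
      algebraMap (MvPolynomial τ (𝓞 M))[X] L (pm τ (algebraMap (𝓞 K) (𝓞 M)) (C b * E.h ^ j)) =
      algebraMap _ L (AllNumberFields.up M b) * algebraMap _ L (E.D (1 : 𝓞 M)) ^ j := by
    intro b j
    rw [map_mul, map_mul, map_pow, map_pow, hb, hD]
  ext
  · change algebraMap (MvPolynomial τ (𝓞 M))[X] L (pm τ (algebraMap (𝓞 K) (𝓞 M)) 0) = 0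
    rw [map_zero, map_zero]
  · have := h1 E.b₂ 1
    rw [pow_one, pow_one] at this
    exact this
  · change algebraMap (MvPolynomial τ (𝓞 M))[X] L (pm τ (algebraMap (𝓞 K) (𝓞 M)) 0) = 0
    rw [map_zero, map_zero]
  · exact h1 E.b₄ 2
  · exact h1 E.b₆ 3

omit [Fintype τ] in
theorem rank_curve (E : Family K τ) (M : IntermediateField K (AlgebraicClosure K))
    [NumberField M] (L : Type) [Field L] [DecidableEq L] [Algebra (MvPolynomial τ (𝓞 M))[X] L]
    [IsFractionRing (MvPolynomial τ (𝓞 M))[X] L] :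
    Module.rank ℤ (E.curve (1 : 𝓞 M) L).toAffine.Point = Module.rank ℤ (PT (W0 E) M) := by
  rw [← curve_eq E M L]
  exact Pool.Agent.TH545.FracIso.rank_frac (W0 E) M L

omit [Fintype τ] in
theorem hasRank_iff (E : Family K τ) (M : IntermediateField K (AlgebraicClosure K))
    [NumberField M] (k : ℕ) : HasRank E M k ↔ Module.rank ℤ (PT (W0 E) M) = k := by
  classical
  constructor
  · intro h
    rw [← rank_curve E M (FractionRing (MvPolynomial τ (𝓞 M))[X])]
    exact h _
  · intro h L _ _ _ _
    rw [rank_curve, h]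

omit [Fintype τ] in
theorem rank_PT_congr (E : Family K τ) {A B : IntermediateField K (AlgebraicClosure K)}
    (h : A = B) : Module.rank ℤ (PT (W0 E) A) = Module.rank ℤ (PT (W0 E) B) := by
  subst h
  rfl

end

open Classical in
/-- **Tate's conjecture over the subfields of a field with symmetric Galois group.**  For every `c`
there is a number `n₀`, `n₀ = 8` if `c = 2`, with the following property.  Let `K`, `E` and `h` be as
above with `c = 2 (deg_t h - 1)`, let `F/K` be an extension of degree `n ≥ n₀` such that all permutations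
of the embeddings of `F` are given by the absolute Galois group of `K`, `L` its closure (so that
`Gal(L/K) = S_n`) and `Q = K(√disc F)`.  Suppose that the functions `Φ₁` of `E` over the Young subfields of
`L` have meromorphic continuations to neighbourhoods of `dim Y`, and let `m r` be their orders there;
`m ⊤` is the order over `K` and `m ⊥` the order over `L`.

* Let `M` be any field between `K` and `L`, and `k = m ⊥` if `Q ⊆ M`, `k = m ⊤` otherwise.  Then
`log |Φ₁(dim Y + ε)| / log(1/ε) → -k` as `ε → 0+`, and `k` is the order of every meromorphic continuation of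
`Φ₁` for `E_M`.  Moreover `|m ⊤| + |m ⊥ - m ⊤| ≤ c`.
* If Tate's conjecture is true for `E_K` and for `E_L`, with ranks `a` and `b`, then for every field `M`
between `K` and `L` the rank of `E_M` over `M(u, t)` is `k = b` if `Q ⊆ M` and `k = a` otherwise,
`log |Φ₁(dim Y + ε)| / log(1/ε)` tends to `-k`, and every meromorphic continuation of `Φ₁` has the order
`k` at `dim Y`. -/
theorem result (c : ℕ) : ∃ n₀ : ℕ, (c = 2 → n₀ = 8) ∧
    ∀ (K : Type) [Field K] [NumberField K] (τ : Type) [Fintype τ] (E : Family K τ),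
    c = 2 * (E.h.natDegree - 1) →
    ∀ (F : Type) [Field F] [NumberField F] [Algebra K F], Function.Surjective (perm K F) →
    n₀ ≤ Module.finrank K F →
    ∀ m : Setoid (F →ₐ[K] AlgebraicClosure K) → ℤ,
    (∀ r, OrderOver E (youngField K F r) (m r)) →
    OrdersBetween E F m ∧ |m ⊤| + |m ⊥ - m ⊤| ≤ c ∧ TateBetween E F := by
  obtain ⟨n₁, hbig⟩ := Pool.Agent.W353.SN.big (c : ℝ)
  obtain ⟨p₀, hp₀, hp₀'⟩ := Nat.exists_infinite_primes (c + 3)
  refine ⟨if c = 2 then 8 else max n₁ p₀, fun h => if_pos h, ?_⟩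
  intro K _ _ τ _ E hc F _ _ _ hF hn m hm
  have hcR : (c : ℝ) = 2 * ((E.h.natDegree : ℝ) - 1) := by
    rw [hc]
    push_cast [Nat.cast_sub E.degree_pos]
    ring
  have hB : ∑ j ∈ E.fd.sy.P, E.fd.sy.b j = c := by
    have e : ∑ j ∈ E.fd.sy.P, E.fd.sy.b j = 2 * ((E.h.natDegree : ℝ) - 1) :=
      Finset.sum_singleton (fun _ : Unit => 2 * ((E.h.natDegree : ℝ) - 1)) ()
    rw [e, hcR]
  have hkap : Pool.Agent.W353.NF.kap 0 = 1 := by
    unfold Pool.Agent.W353.NF.kap
    rw [if_pos rfl]
  have hcard : Fintype.card (F →ₐ[K] AlgebraicClosure K) = Module.finrank K F :=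
    AlgHom.card K F (AlgebraicClosure K)
  obtain ⟨hmain, hbound⟩ := Pool.Agent.TH545.SymCore.main E.fd.sy
    (fun _ _ x => Complex.ofReal_im _) hF 0 (fun θ hcl hys hb => by
      rw [hB, hkap, mul_one] at hb
      by_cases h2 : c = 2
      · rw [if_pos h2] at hn
        exact Pool.Agent.W353.SN.main_two (fun g u => by convert hcl g u) hys.ymean
          (by rw [hcard]; exact hn) (by rw [h2] at hb; exact_mod_cast hb)
      · rw [if_neg h2] at hn
        exact hbig _ (by rw [hcard]; exact (le_max_left _ _).trans hn) θ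
          (fun g u => by convert hcl g u) hys hb) m (fun r => by
      obtain ⟨hnf, hr⟩ := hm r
      obtain ⟨k, hk, hlim⟩ := AllNumberFields.size_lim E (1 : 𝓞 (youngField K F r)) hr
      have hk' : m r = k := by exact_mod_cast hk
      rw [hk']
      exact ⟨hnf, _, E.fd.isSize (F := youngField K F r) (fun _ => 1), hlim⟩)
  rw [hB, hkap, mul_one] at hbound
  have hbd : |m ⊤| + |m ⊥ - m ⊤| ≤ c := by exact_mod_cast hbound
  -- the orders
  have hlimM : ∀ (M : IntermediateField K (AlgebraicClosure K)) [NumberField M],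
      M ≤ closure K F →
      Tendsto (E.fd.X M (1 : 𝓞 M)) (𝓝[>] 0) (𝓝 (-(expected F m M : ℝ))) := by
    intro M _ hM
    exact hmain M hM _ (E.fd.isSize (F := M) (fun _ => 1))
  have hord : ∀ (M : IntermediateField K (AlgebraicClosure K)) [NumberField M],
      M ≤ closure K F →
      (∀ Φ : ℂ → ℂ, E.IsPhi (1 : 𝓞 M) Φ →
        Tendsto (fun ε : ℝ => Real.log ‖Φ ((Fintype.card τ : ℂ) + 2 + ε)‖ / Real.log (1 / ε))
          (𝓝[>] 0) (𝓝 (-(expected F m M : ℝ)))) ∧
      ∀ k, E.HasOrder (1 : 𝓞 M) k → k = ((expected F m M : ℤ) : WithTop ℤ) := by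
    intro M _ hM
    refine ⟨fun Φ hΦ => ?_, fun k hk => ?_⟩
    · refine (hlimM M hM).congr' ?_
      filter_upwards [self_mem_nhdsWithin] with ε hε
      have hε' : (0 : ℝ) < ε := hε
      unfold Pool.Agent.W385.CP.FD.X
      have hre : (Fintype.card τ : ℝ) + 2 < ((Fintype.card τ : ℂ) + 2 + ε).re := by
        simp
        exact hε'
      have e1 : ((Fintype.card τ + 1 : ℕ) : ℂ) + 1 + ε = (Fintype.card τ : ℂ) + 2 + ε := by
        push_cast
        ring
      rw [e1, AllNumberFields.isPhi_unique E (1 : 𝓞 M) (AllNumberFields.isPhi E (1 : 𝓞 M)) hΦ _ hre]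
    · obtain ⟨n, hn', hlim⟩ := AllNumberFields.size_lim E (1 : 𝓞 M) hk
      have h3 := neg_injective (tendsto_nhds_unique hlim (hlimM M hM))
      have h4 : n = expected F m M := by exact_mod_cast h3
      rw [hn', h4]
  refine ⟨fun M _ hM => hord M hM, hbd, ?_⟩
  -- the ranks
  rintro a b ⟨nfK, hra, hoa⟩ ⟨nfL, hrb, hob⟩ M _ hM
  have hQL : quadField K F ≤ closure K F := by
    have h1 : quadField K F = Pool.Agent.W353.SN.MH K F
      (Equiv.Perm.sign (α := F →ₐ[K] AlgebraicClosure K)).ker := rfl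
    rw [← Pool.Agent.TH545.Young.young_bot]
    refine IntermediateField.fixedField_antitone ?_
    intro σ hσ
    have h2 : perm K F σ = 1 := Equiv.ext fun i => (hσ i).symm
    rw [MonoidHom.mem_ker, MonoidHom.comp_apply, h2, map_one]
  have hbm : (b : ℤ) = m ⊥ := by
    have h1 := (hord (closure K F) le_rfl).2 _ hob
    have h2 : expected F m (closure K F) = m ⊥ := if_pos hQL
    rw [h2] at h1
    exact_mod_cast h1
  have ham : (a : ℤ) = expected F m ⊥ := by
    have h1 := (hord ⊥ bot_le).2 _ hoa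
    exact_mod_cast h1
  have hexp : expected F m M = ((if quadField K F ≤ M then b else a : ℕ) : ℤ) := by
    unfold expected at ham ⊢
    by_cases h1 : quadField K F ≤ M
    · rw [if_pos h1, if_pos h1, hbm]
    · have h2 : ¬ quadField K F ≤ ⊥ := fun h => h1 (h.trans bot_le)
      rw [if_neg h2] at ham
      rw [if_neg h1, if_neg h1, ham]
  have hbc : b ≤ c := by
    have h1 : |m ⊥| ≤ |m ⊤| + |m ⊥ - m ⊤| := by
      have h2 : m ⊥ = m ⊤ + (m ⊥ - m ⊤) := by ring
      calc |m ⊥| = |m ⊤ + (m ⊥ - m ⊤)| := by rw [← h2]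
        _ ≤ _ := abs_add_le _ _
    rw [← hbm] at h1
    have h3 : ((b : ℤ)) ≤ |(b : ℤ)| := le_abs_self _
    have h4 : (b : ℤ) ≤ c := by rw [← hbm] at hbd; linarith
    exact_mod_cast h4
  obtain ⟨p, hp, hp3, hpX, hpc⟩ : ∃ p : ℕ, p.Prime ∧ 3 ≤ p ∧
      p ≤ Fintype.card (F →ₐ[K] AlgebraicClosure K) ∧ c < p - 1 := by
    rw [hcard]
    by_cases h2 : c = 2
    · rw [if_pos h2] at hn
      exact ⟨5, by norm_num, by norm_num, by omega, by omega⟩
    · rw [if_neg h2] at hn
      exact ⟨p₀, hp₀', by omega, (le_max_right _ _).trans hn, by omega⟩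
  obtain ⟨H, hH⟩ : ∃ H, M = Pool.Agent.W353.SN.MH K F H :=
    ⟨_, Pool.Agent.W353.SN.eq_MH K F hM⟩
  have hiff : (∀ h ∈ H, Equiv.Perm.sign h = 1) ↔ quadField K F ≤ M := by
    have h3 : quadField K F = Pool.Agent.W353.SN.MH K F
      (Equiv.Perm.sign (α := F →ₐ[K] AlgebraicClosure K)).ker := rfl
    rw [h3, hH]
    constructor
    · intro h
      exact IntermediateField.fixedField_antitone (Subgroup.comap_mono h)
    · intro h g hg
      obtain ⟨σ, rfl⟩ := hF g
      have h4 := IntermediateField.fixingSubgroup_antitone h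
      rw [Pool.Agent.W353.SN.fix_MH, Pool.Agent.W353.SN.fix_MH] at h4
      exact h4 (show σ ∈ H.comap (Pool.Agent.W353.NF.act K F) from hg)
  have hbot : Pool.Agent.W353.SN.MH K F ⊥ = closure K F := by
    rw [← Pool.Agent.TH545.Young.young_bot]
    change _ = Pool.Agent.W353.SN.MH K F (Pool.Agent.W353.SN.yg ⊥)
    rw [Pool.Agent.TH545.SymCore.yg_bot]
  have htop : Pool.Agent.W353.SN.MH K F ⊤ = ⊥ := by
    rw [← Pool.Agent.TH545.Young.young_top K F]
    change _ = Pool.Agent.W353.SN.MH K F (Pool.Agent.W353.SN.yg ⊤)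
    rw [Pool.Agent.TH545.SymCore.yg_top]
  have hrankL : Module.rank ℤ (Pool.Agent.TH545.Points.PT (W0 E)
      (Pool.Agent.TH545.Points.Lc K F)) = b := (hasRank_iff E (closure K F) b).1 hrb
  have hlt : Module.rank ℤ (Pool.Agent.TH545.Points.PT (W0 E)
      (Pool.Agent.TH545.Points.Lc K F)) < ((p - 1 : ℕ) : Cardinal) := by
    rw [hrankL]
    exact_mod_cast lt_of_le_of_lt hbc hpc
  obtain ⟨hr1, hr2⟩ := Pool.Agent.TH545.RankSym.rank_inv
    (Pool.Agent.TH545.Points.rho (W0 E) hF) hp hp3 hpX hlt H
  have hle : ∀ H' : Subgroup (Pool.Agent.W353.SN.PX K F),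
      Pool.Agent.W353.SN.MH K F H' ≤ Pool.Agent.TH545.Points.Lc K F := by
    intro H'
    have h1 : Pool.Agent.W353.SN.MH K F H' ≤ Pool.Agent.W353.SN.MH K F ⊥ :=
      IntermediateField.fixedField_antitone (Subgroup.comap_mono bot_le)
    rw [hbot] at h1
    exact h1
  have hrM : HasRank E M (if quadField K F ≤ M then b else a) := by
    rw [hasRank_iff, rank_PT_congr E hH,
      Pool.Agent.TH545.Points.rank_MH (W0 E) hF H (hle H)]
    by_cases h1 : quadField K F ≤ M
    · rw [if_pos h1, hr1 (hiff.2 h1), ← Pool.Agent.TH545.Points.rank_MH (W0 E) hF ⊥ (hle ⊥),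
        rank_PT_congr E hbot]
      exact hrankL
    · rw [if_neg h1, hr2 (by
        by_contra hcon
        push Not at hcon
        exact h1 (hiff.1 hcon)), ← Pool.Agent.TH545.Points.rank_MH (W0 E) hF ⊤ (hle ⊤),
        rank_PT_congr E htop]
      exact (hasRank_iff E ⊥ a).1 hra
  obtain ⟨ho1, ho2⟩ := hord M hM
  rw [hexp] at ho1 ho2
  exact ⟨hrM, fun Φ hΦ => by simpa using ho1 Φ hΦ, ho2⟩

end Pool.Agent.Results.MP_9faec4_nt.SymmetricClosure
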